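import Pool.Agent.H1.Agree.Proof

set_option autoImplicit false

namespace Pool.Agent.Results.MP_880652_co.NotUnimodal

open Pool.Agent.H1.Agree

/-- There is a poset with seven elements whose sequence of agreement counts is not unimodal. -/
theorem result :
    ∃ (X : Type) (_ : Fintype X) (_ : DecidableEq X) (_ : PartialOrder X) (h i j : ℕ),
      Fintype.card X = 7 ∧ h < i ∧ i < j ∧ j ≤ numComparable X ∧
      agreeSeq X i < agreeSeq X h ∧ agreeSeq X i < agreeSeq X j := by
  refine ⟨P7, inferInstance, inferInstance, inferInstance, 4, 5, 6, by decide, by norm_num,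
    by norm_num, ?_, ?_, ?_⟩
  · rw [numComparable_P7]; norm_num
  · rw [a4, a5]; norm_num
  · rw [a5, a6]; norm_num

end Pool.Agent.Results.MP_880652_co.NotUnimodal
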